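import Pool.Agent.Q276.HL.Stm
import Pool.Agent.W61.HZ.PAD

set_option autoImplicit false

namespace Pool.Agent.Q192.HL

open Polynomial Pool.Agent.Q276.HL

/-- Hensel approximation of a fourth root by a polynomial. -/
theorem approx4 (p : ℕ) (hp : p.Prime) (hp3 : 3 < p) (G : ℤ[X]) {ι : Type} (τ g : ι → ℤ) (i0 : ι)
    (hg : ∀ i, g i ^ 4 = G.eval (τ i)) (hpg : ∀ i, ¬ (p : ℤ) ∣ g i)
    (hgg : ∀ i j, (p : ℤ) ∣ g i - g j) (k : ℕ) :
    ∃ c : ℤ[X], ∀ i, (p : ℤ) ^ (k + 1) ∣ c.eval (τ i) - g i := by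
  have hpp : Prime (p : ℤ) := Nat.prime_iff_prime_int.1 hp
  have h2 : ¬ (p : ℤ) ∣ 4 := by
    intro h
    have h22 : (p : ℤ) ∣ 2 := by
      have : (4 : ℤ) = 2 * 2 := by norm_num
      rw [this] at h
      rcases hpp.dvd_or_dvd h with h | h <;> exact h
    have := Int.le_of_dvd (by norm_num) h22
    omega
  have hu : ∃ u : ℤ, (p : ℤ) ∣ 1 - u * (4 * g i0 ^ 3) := by
    have hnd : ¬ (p : ℤ) ∣ 4 * g i0 ^ 3 := by
      intro h
      rcases hpp.dvd_or_dvd h with h | h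
      · exact h2 h
      · exact hpg i0 (hpp.dvd_of_dvd_pow h)
    have hcop : IsCoprime (p : ℤ) (4 * g i0 ^ 3) := (Prime.coprime_iff_not_dvd hpp).2 hnd
    obtain ⟨a, b, hab⟩ := hcop
    exact ⟨b, ⟨a, by linarith⟩⟩
  obtain ⟨u, hu⟩ := hu
  induction k with
  | zero =>
    refine ⟨C (g i0), fun i => ?_⟩
    rw [eval_C, zero_add, pow_one]
    exact hgg i0 i
  | succ k ih =>
    obtain ⟨c, hc⟩ := ih
    refine ⟨c - C u * (c ^ 4 - G), fun i => ?_⟩
    have h1 : (c - C u * (c ^ 4 - G)).eval (τ i) - g i =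
        (c.eval (τ i) - g i) *
          (1 - u * (c.eval (τ i) ^ 3 + c.eval (τ i) ^ 2 * g i + c.eval (τ i) * g i ^ 2 +
            g i ^ 3)) := by
      simp only [eval_sub, eval_mul, eval_C, eval_pow]
      rw [← hg i]
      ring
    rw [h1, pow_succ]
    apply mul_dvd_mul (hc i)
    have hci : (p : ℤ) ∣ c.eval (τ i) - g i := (dvd_pow_self _ (Nat.succ_ne_zero k)).trans (hc i)
    have m2 : g i ≡ g i0 [ZMOD p] := (Int.modEq_iff_dvd.2 (hgg i0 i))
    have m1 : c.eval (τ i) ≡ g i0 [ZMOD p] := by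
      have m3 : g i ≡ c.eval (τ i) [ZMOD p] := Int.modEq_iff_dvd.2 hci
      exact m3.symm.trans m2
    have m4 : c.eval (τ i) ^ 3 + c.eval (τ i) ^ 2 * g i + c.eval (τ i) * g i ^ 2 + g i ^ 3 ≡
        g i0 ^ 3 + g i0 ^ 2 * g i0 + g i0 * g i0 ^ 2 + g i0 ^ 3 [ZMOD p] :=
      (((m1.pow 3).add ((m1.pow 2).mul m2)).add (m1.mul (m2.pow 2))).add (m2.pow 3)
    have m5 : (1 : ℤ) - u * (c.eval (τ i) ^ 3 + c.eval (τ i) ^ 2 * g i + c.eval (τ i) * g i ^ 2 +
        g i ^ 3) ≡ 1 - u * (4 * g i0 ^ 3) [ZMOD p] := by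
      have e : g i0 ^ 3 + g i0 ^ 2 * g i0 + g i0 * g i0 ^ 2 + g i0 ^ 3 = 4 * g i0 ^ 3 := by ring
      rw [e] at m4
      exact (Int.ModEq.refl 1).sub ((Int.ModEq.refl u).mul m4)
    have m6 : (1 : ℤ) - u * (4 * g i0 ^ 3) ≡ 0 [ZMOD p] := (Int.modEq_zero_iff_dvd).2 hu
    exact (Int.modEq_zero_iff_dvd).1 (m5.trans m6)

theorem pad4 : StmtPAD4 := by
  classical
  intro p hp hp3 G m hm τ g hg hpg hτ hgg
  let i0 : Fin m ⊕ Fin m := Sum.inl ⟨0, by omega⟩
  obtain ⟨c, hc⟩ := approx4 p hp hp3 G τ g i0 hg hpg hgg (m * (2 * m - 1))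
  let h : Fin m ⊕ Fin m → ℤ[X] := Sum.elim (fun j : Fin m => X ^ (j : ℕ))
    (fun j : Fin m => c * X ^ (j : ℕ))
  let e : Fin m ⊕ Fin m ≃ Fin (m + m) := finSumFinEquiv
  have h1 := Pool.Agent.W61.HZ.det_dvd (p : ℤ) (m + m) (fun i => τ (e.symm i)) (fun i j => hτ _ _)
    (fun j => h (e.symm j))
  have h2 : Matrix.det (Matrix.of fun i j : Fin (m + m) => (h (e.symm j)).eval (τ (e.symm i))) =
      Matrix.det (Matrix.of fun i j : Fin m ⊕ Fin m => (h j).eval (τ i)) := by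
    rw [← Matrix.det_submatrix_equiv_self e.symm
      (Matrix.of fun i j : Fin m ⊕ Fin m => (h j).eval (τ i))]
    rfl
  have h3 : (m + m) * (m + m - 1) / 2 = m * (2 * m - 1) := by
    have : (m + m) * (m + m - 1) = 2 * (m * (2 * m - 1)) := by
      rw [show m + m = 2 * m by ring]
      ring
    rw [this]
    omega
  rw [h2, h3] at h1
  have hcast : ((Matrix.det (Matrix.of fun i : Fin m ⊕ Fin m =>
      Sum.elim (fun j : Fin m => τ i ^ (j : ℕ)) (fun j : Fin m => g i * τ i ^ (j : ℕ))) : ℤ) :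
        ZMod (p ^ (m * (2 * m - 1)))) =
      ((Matrix.det (Matrix.of fun i j : Fin m ⊕ Fin m => (h j).eval (τ i)) : ℤ) :
        ZMod (p ^ (m * (2 * m - 1)))) := by
    change (Int.castRingHom (ZMod (p ^ (m * (2 * m - 1))))) _ =
      (Int.castRingHom (ZMod (p ^ (m * (2 * m - 1))))) _
    rw [RingHom.map_det, RingHom.map_det]
    congr 1
    ext i j
    rcases j with j | j
    · simp [h]
    · have h4 : ((c.eval (τ i) : ℤ) : ZMod (p ^ (m * (2 * m - 1)))) = (g i : ℤ) := by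
        rw [ZMod.intCast_eq_intCast_iff_dvd_sub]
        have h5 := hc i
        rw [pow_succ] at h5
        have h6 : ((p ^ (m * (2 * m - 1)) : ℕ) : ℤ) ∣ c.eval (τ i) - g i := by
          push_cast
          exact (Dvd.intro _ rfl).trans h5
        rw [← neg_sub, dvd_neg]
        exact h6
      simp [h, h4]
  rw [ZMod.intCast_eq_intCast_iff_dvd_sub] at hcast
  push_cast at hcast
  have h7 := dvd_sub h1 hcast
  simpa using h7

end Pool.Agent.Q192.HL
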